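import Pool.Agent.H814Z.Br.Final
set_option autoImplicit false

/-!
# Finite Brandt semigroups over `V` are completely solvable (Q2)

For every pseudovariety `V` of groups with decidable universal theory, all classes obtained from the
class `BrO V` of finite Brandt semigroups with subgroups in `V` by composites of the operators `H`,
`S`, `P` are decidable from multiplication tables.
-/

namespace Pool.Agent.Results.MP_152bd8_lc.ABrandt

open Pool.Agent.H502.Bk Pool.Agent.H814Z.Br

/-- For every pseudovariety of groups with decidable universal theory the class of finite Brandt
semigroups over groups in `V` is completely solvable: `K(B_V)` is decidable for every composite `K`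
of the operators `H`, `S`, `P` (the empty composite included). -/
theorem result (V : PV) (hV : V.DecUniv) (l : List Op) : DecClass (app l (BrO V)) :=
  brandt_completely_solvable V hV l

end Pool.Agent.Results.MP_152bd8_lc.ABrandt
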